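import Mathlib

/-!
# Project CY (helper94): piece B2
-/

set_option autoImplicit false

namespace Pool.Agent.W2helper51.CY

open Finset

section ring

variable {R : Type} [CommRing R] (x : R)

lemma one_pow_dvd (r d a : ℕ) (hd : r ≤ d) : x ^ (2 * r) ∣ (1 - x ^ d) ^ a - (1 - a * x ^ d) := by
  induction a with
  | zero => simp
  | succ a ih =>
    have e : (1 - x ^ d) ^ (a + 1) - (1 - ((a + 1 : ℕ) : R) * x ^ d) =
        ((1 - x ^ d) ^ a - (1 - a * x ^ d)) * (1 - x ^ d) + a * x ^ (2 * d) := by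
      rw [pow_succ, two_mul, pow_add]
      push_cast
      ring
    rw [e]
    exact dvd_add (Dvd.dvd.mul_right ih _) (Dvd.dvd.mul_left (pow_dvd_pow x (by omega)) _)

lemma prod_dvd (r : ℕ) (a : ℕ → ℕ) (T : Finset ℕ) (hT : ∀ d ∈ T, r ≤ d) :
    x ^ (2 * r) ∣ (∏ d ∈ T, (1 - x ^ d) ^ a d) - (1 - ∑ d ∈ T, (a d : R) * x ^ d) ∧
      x ^ r ∣ ∑ d ∈ T, (a d : R) * x ^ d := by
  classical
  induction T using Finset.induction_on with
  | empty => simp
  | insert d T hd ih =>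
    obtain ⟨h1, h2⟩ := ih fun d' hd' => hT d' (mem_insert_of_mem hd')
    have hr := hT d (mem_insert_self d T)
    rw [prod_insert hd, sum_insert hd]
    have h3 := one_pow_dvd x r d (a d) hr
    have h4 : x ^ r ∣ (a d : R) * x ^ d := Dvd.dvd.mul_left (pow_dvd_pow x hr) _
    refine ⟨?_, dvd_add h4 h2⟩
    have h5 : x ^ (2 * r) ∣ ((a d : R) * x ^ d) * ∑ d ∈ T, (a d : R) * x ^ d := by
      rw [two_mul, pow_add]
      exact mul_dvd_mul h4 h2
    have e : (1 - x ^ d) ^ a d * (∏ d ∈ T, (1 - x ^ d) ^ a d) -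
        (1 - ((a d : R) * x ^ d + ∑ d ∈ T, (a d : R) * x ^ d)) =
        (1 - x ^ d) ^ a d * ((∏ d ∈ T, (1 - x ^ d) ^ a d) - (1 - ∑ d ∈ T, (a d : R) * x ^ d)) +
        ((1 - x ^ d) ^ a d - (1 - a d * x ^ d)) * (1 - ∑ d ∈ T, (a d : R) * x ^ d) +
        ((a d : R) * x ^ d) * ∑ d ∈ T, (a d : R) * x ^ d := by ring
    rw [e]
    exact dvd_add (dvd_add (Dvd.dvd.mul_left h1 _) (Dvd.dvd.mul_right h3 _)) h5

end ring

open PowerSeries in
lemma key (r M : ℕ) (hr : 1 ≤ r) (a b : ℕ → ℕ) (hab : ∀ d, 0 < d → d < r → a d = b d)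
    (G : PowerSeries ℤ) (hG0 : coeff 0 G = 1) (hG : ∀ j, 0 < j → j < r → coeff j G = 0)
    (h : (∏ d ∈ Ico 1 M, (1 - X ^ d : PowerSeries ℤ) ^ a d) * G =
      ∏ d ∈ Ico 1 M, (1 - X ^ d : PowerSeries ℤ) ^ b d) (k : ℕ) (hk : r ≤ k) (hk2 : k < 2 * r)
    (hkM : k < M) : (b k : ℤ) - a k = - coeff k G := by
  have hne : ∀ d, 1 ≤ d → (1 - X ^ d : PowerSeries ℤ) ≠ 0 := by
    intro d hd h0
    have := congrArg (coeff 0) h0
    simp [zero_pow (show d ≠ 0 by omega)] at this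
  have hsplit : ∀ c : ℕ → ℕ, ∏ d ∈ Ico 1 M, (1 - X ^ d : PowerSeries ℤ) ^ c d =
      (∏ d ∈ Ico 1 r, (1 - X ^ d : PowerSeries ℤ) ^ c d) *
        ∏ d ∈ Ico r M, (1 - X ^ d : PowerSeries ℤ) ^ c d := fun c =>
    (prod_Ico_consecutive _ hr (by omega)).symm
  have hcommon : ∏ d ∈ Ico 1 r, (1 - X ^ d : PowerSeries ℤ) ^ a d =
      ∏ d ∈ Ico 1 r, (1 - X ^ d : PowerSeries ℤ) ^ b d := by
    refine prod_congr rfl fun d hd => ?_
    rw [mem_Ico] at hd
    rw [hab d (by omega) hd.2]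
  have h0 : ∏ d ∈ Ico 1 r, (1 - X ^ d : PowerSeries ℤ) ^ b d ≠ 0 := by
    rw [prod_ne_zero_iff]
    intro d hd
    rw [mem_Ico] at hd
    exact pow_ne_zero _ (hne d hd.1)
  rw [hsplit, hsplit b, hcommon, mul_assoc] at h
  have h1 := mul_left_cancel₀ h0 h
  obtain ⟨hA1, hA2⟩ := prod_dvd (X : PowerSeries ℤ) r a (Ico r M) (fun d hd => (mem_Ico.1 hd).1)
  obtain ⟨hB1, -⟩ := prod_dvd (X : PowerSeries ℤ) r b (Ico r M) (fun d hd => (mem_Ico.1 hd).1)
  set PA := ∏ d ∈ Ico r M, (1 - X ^ d : PowerSeries ℤ) ^ a d with hPA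
  set PB := ∏ d ∈ Ico r M, (1 - X ^ d : PowerSeries ℤ) ^ b d with hPB
  set SA := ∑ d ∈ Ico r M, (a d : PowerSeries ℤ) * X ^ d with hSA
  set SB := ∑ d ∈ Ico r M, (b d : PowerSeries ℤ) * X ^ d with hSB
  have hG1 : (X : PowerSeries ℤ) ^ r ∣ G - 1 := by
    rw [X_pow_dvd_iff]
    intro m hm
    rcases Nat.eq_zero_or_pos m with h2 | h2
    · subst h2; rw [map_sub, hG0]; simp
    · rw [map_sub, hG m h2 hm, coeff_one, if_neg (by omega), sub_zero]
  have hfin : (X : PowerSeries ℤ) ^ (2 * r) ∣ G - SA - 1 + SB := by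
    have e : G - SA - 1 + SB = (PB - (1 - SB)) - (PA - (1 - SA)) * G + SA * (G - 1) := by
      rw [← h1]; ring
    rw [e]
    refine dvd_add (dvd_sub hB1 (Dvd.dvd.mul_right hA1 _)) ?_
    rw [two_mul, pow_add]
    exact mul_dvd_mul hA2 hG1
  rw [X_pow_dvd_iff] at hfin
  have h2 := hfin k hk2
  have hco : ∀ c : ℕ → ℕ, coeff k (∑ d ∈ Ico r M, (c d : PowerSeries ℤ) * X ^ d) = (c k : ℤ) := by
    intro c
    rw [map_sum, sum_eq_single k]
    · rw [← map_natCast (C (R := ℤ)) (c k), coeff_C_mul, coeff_X_pow, if_pos rfl]; simp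
    · intro d _ hd
      rw [← map_natCast (C (R := ℤ)) (c d), coeff_C_mul, coeff_X_pow, if_neg (Ne.symm hd)]; simp
    · intro hn
      exact absurd (mem_Ico.2 ⟨hk, hkM⟩) hn
  rw [map_add, map_sub, map_sub, hSA, hSB, hco, hco, coeff_one, if_neg (by omega)] at h2
  linarith

theorem exponents_coeff (K : Polynomial ℤ) (c : ℕ) (e : ℕ → ℤ) (he0 : e 0 = 0)
    (hec : ∀ d, c ≤ d → e d = 0)
    (hK : K * ∏ d ∈ range c, (1 - Polynomial.X ^ d) ^ (-e d).toNat =
      ∏ d ∈ range c, (1 - Polynomial.X ^ d) ^ (e d).toNat)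
    (s : Multiset ℕ) (hs : ∀ m ∈ s, 0 < m) (G : PowerSeries ℤ)
    (hG : (K : PowerSeries ℤ) = (s.map fun m => (1 - PowerSeries.X ^ m : PowerSeries ℤ)).prod * G)
    (hG0 : PowerSeries.coeff 0 G = 1) (N : ℕ)
    (hN : ∀ j, 0 < j → j < N → PowerSeries.coeff j G = 0) :
    (∀ d, 0 < d → d < N → e d = s.count d) ∧
      ∀ k, 0 < k → N ≤ k → k < 2 * N → e k = s.count k - PowerSeries.coeff k G := by
  classical
  set M := c + s.sum + 2 * N + 1 with hM
  have hcM : c ≤ M := by omega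
  have hsM : ∀ m ∈ s, m < M := by
    intro m hm
    have := Multiset.le_sum_of_mem hm
    omega
  -- the products over `Ico 1 M`
  have hprod : ∀ t : ℕ → ℕ, t 0 = 0 → (∀ d, c ≤ d → t d = 0) →
      ∏ d ∈ range c, (1 - PowerSeries.X ^ d : PowerSeries ℤ) ^ t d =
        ∏ d ∈ Ico 1 M, (1 - PowerSeries.X ^ d : PowerSeries ℤ) ^ t d := by
    intro t ht0 htc
    have e1 : ∏ d ∈ range c, (1 - PowerSeries.X ^ d : PowerSeries ℤ) ^ t d =
        ∏ d ∈ range M, (1 - PowerSeries.X ^ d : PowerSeries ℤ) ^ t d := by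
      refine prod_subset (range_subset_range.2 hcM) fun d _ hd => ?_
      rw [mem_range, not_lt] at hd
      rw [htc d hd, pow_zero]
    rw [e1, range_eq_Ico, ← prod_Ico_consecutive _ (Nat.zero_le 1) (by omega : 1 ≤ M)]
    simp [ht0]
  have hsp : (s.map fun m => (1 - PowerSeries.X ^ m : PowerSeries ℤ)).prod =
      ∏ d ∈ Ico 1 M, (1 - PowerSeries.X ^ d : PowerSeries ℤ) ^ s.count d := by
    rw [Finset.prod_multiset_map_count]
    refine prod_subset ?_ fun d _ hd => ?_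
    · intro m hm
      rw [Multiset.mem_toFinset] at hm
      exact mem_Ico.2 ⟨hs m hm, hsM m hm⟩
    · rw [Multiset.mem_toFinset] at hd
      rw [Multiset.count_eq_zero_of_notMem hd, pow_zero]
  have hK' := congrArg (Polynomial.coeToPowerSeries.ringHom (R := ℤ)) hK
  simp only [map_mul, map_prod, map_pow, map_sub, map_one,
    Polynomial.coeToPowerSeries.ringHom_apply, Polynomial.coe_X] at hK'
  rw [hG, hsp, hprod _ (by simp [he0]) (fun d hd => by simp [hec d hd]),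
    hprod _ (by simp [he0]) (fun d hd => by simp [hec d hd])] at hK'
  have hfull : (∏ d ∈ Ico 1 M, (1 - PowerSeries.X ^ d : PowerSeries ℤ) ^ (s.count d + (-e d).toNat)) * G =
      ∏ d ∈ Ico 1 M, (1 - PowerSeries.X ^ d : PowerSeries ℤ) ^ (e d).toNat := by
    rw [← hK']
    simp only [pow_add, prod_mul_distrib]
    ring
  have hbig : ∀ d, M ≤ d → e d = 0 ∧ s.count d = 0 := by
    intro d hd
    refine ⟨hec d (by omega), Multiset.count_eq_zero_of_notMem fun hm => ?_⟩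
    have := hsM d hm
    omega
  have hval : ∀ r, 1 ≤ r → r ≤ N → (∀ d, 0 < d → d < r → e d = s.count d) →
      ∀ k, r ≤ k → k < 2 * r → k < M → e k = s.count k - PowerSeries.coeff k G := by
    intro r hr hrN hlow k hk hk2 hkM
    have h1 := key r M hr (fun d => s.count d + (-e d).toNat) (fun d => (e d).toNat) (by
      intro d hd0 hdr
      have h2 := hlow d hd0 hdr
      omega) G hG0 (fun j hj hjr => hN j hj (by omega)) hfull k hk hk2 hkM
    push_cast at h1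
    have h3 : ((e k).toNat : ℤ) - ((-e k).toNat : ℤ) = e k := by omega
    linarith
  have hlow : ∀ d, 0 < d → d < N → e d = s.count d := by
    intro d
    induction d using Nat.strong_induction_on with
    | _ d ih =>
      intro hd0 hdN
      by_cases hdM : d < M
      · have h1 := hval d hd0 hdN.le (fun d' hd' hlt => ih d' hlt hd' (by omega)) d le_rfl
          (by omega) hdM
        rw [hN d hd0 hdN, sub_zero] at h1
        exact h1
      · obtain ⟨h1, h2⟩ := hbig d (by omega)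
        rw [h1, h2]; rfl
  refine ⟨hlow, ?_⟩
  intro k hk0 hk hk2
  have hN1 : 1 ≤ N := by omega
  exact hval N hN1 le_rfl hlow k hk hk2 (by omega)

end Pool.Agent.W2helper51.CY
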